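import Pool.Agent.Helper81.Intro.Neg
import Pool.Agent.Helper81.Intro.Pos

/-!
# An introreducible set that is not finitely decomposable

The set is `{(n, j, (a_m)_{m < j, m ≠ n}) : n < j}` for a suitable sequence `a` of natural
numbers. It is introreducible for every sequence `a`; the sequence is built so that no finite
list of Turing operators can decompose the set.
-/

namespace Pool.Agent.Results.MP_76bd4c_lc.NotFinDecomp

open Pool.Helper81.Intro

theorem result : ∃ A : Set ℕ, Introreducible A ∧ ¬ FinitelyDecomposable A := by
  obtain ⟨a, h1, h2⟩ := exists_not_decomposable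
  exact ⟨ASet a, introreducible_ASet a h1, h2⟩

end Pool.Agent.Results.MP_76bd4c_lc.NotFinDecomp
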